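import Pool.Agent.Helper55.SCH.Goals

/-!
# SCH-CR2 (packet 9481)
-/

set_option autoImplicit false

namespace Pool.Agent.Helper9.SCH

open Finset Pool.Agent.Helper55.SCH

theorem S_zero (s : ℕ → ℝ) : S s 0 = 0 := by
  unfold S
  simp

theorem S_succ (s : ℕ → ℝ) (k : ℕ) : S s (k + 1) = S s k + s (k + 1) := by
  unfold S
  rw [sum_Icc_succ_top (by omega)]

theorem S_neg (s : ℕ → ℝ) (k : ℕ) : S (fun x => - s x) k = - S s k := by
  unfold S
  rw [sum_neg_distrib]

theorem S_ind {N : ℕ} {s : ℕ → ℝ} (h0 : ∀ x, x ∉ Icc 1 N → s x = 0) (k : ℕ) :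
    S s k = ∑ x ∈ Icc 1 N, if x ≤ k then s x else 0 := by
  unfold S
  rw [← sum_filter]
  have h1 : (Icc 1 N).filter (fun x => x ≤ k) ⊆ Icc 1 k := by
    intro x hx
    rw [mem_filter, mem_Icc] at hx
    rw [mem_Icc]
    exact ⟨hx.1.1, hx.2⟩
  rw [sum_subset h1]
  intro x hx hx'
  apply h0
  intro hcon
  apply hx'
  rw [mem_filter]
  exact ⟨hcon, (mem_Icc.1 hx).2⟩

theorem S_const {N : ℕ} {s : ℕ → ℝ} (h0 : ∀ x, x ∉ Icc 1 N → s x = 0) {k : ℕ} (hk : N ≤ k) :
    S s k = S s N := by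
  rw [S_ind h0 k, S_ind h0 N]
  refine sum_congr rfl fun x hx => ?_
  have := mem_Icc.1 hx
  rw [if_pos (by omega), if_pos (by omega)]

/-- Exchange of the order of summation. -/
theorem exch {c u : ℕ} {s r : ℕ → ℝ} (hs : ∀ x, x ∉ Icc 1 c → s x = 0)
    (hr : ∀ v, v ∉ Icc 1 u → r v = 0) :
    ∑ x ∈ Icc 1 c, s x * (S r (u - x) + S r u - S r x) =
      ∑ v ∈ Icc 1 u, r v * (S s (u - v) + S s (v - 1)) := by
  have h1 : ∀ x ∈ Icc 1 c, s x * (S r (u - x) + S r u - S r x) =
      ∑ v ∈ Icc 1 u, s x * r v * ((if x + v ≤ u then 1 else 0) + (if x < v then 1 else 0)) := by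
    intro x hx
    rw [S_ind hr (u - x), S_ind hr u, S_ind hr x, ← sum_add_distrib, ← sum_sub_distrib, mul_sum]
    refine sum_congr rfl fun v hv => ?_
    have hx' := mem_Icc.1 hx
    have hv' := mem_Icc.1 hv
    have e1 : (v ≤ u - x) ↔ (x + v ≤ u) := by omega
    have e2 : (v ≤ x) ↔ ¬ (x < v) := by omega
    rw [if_pos hv'.2]
    simp only [e1, e2]
    by_cases c1 : x + v ≤ u <;> by_cases c2 : x < v <;> simp only [c1, c2, if_true, if_false,
      not_true_eq_false, not_false_eq_true] <;> ring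
  have h2 : ∀ v ∈ Icc 1 u, r v * (S s (u - v) + S s (v - 1)) =
      ∑ x ∈ Icc 1 c, s x * r v * ((if x + v ≤ u then 1 else 0) + (if x < v then 1 else 0)) := by
    intro v hv
    rw [S_ind hs (u - v), S_ind hs (v - 1), ← sum_add_distrib, mul_sum]
    refine sum_congr rfl fun x hx => ?_
    have hx' := mem_Icc.1 hx
    have hv' := mem_Icc.1 hv
    have e1 : (x ≤ u - v) ↔ (x + v ≤ u) := by omega
    have e2 : (x ≤ v - 1) ↔ (x < v) := by omega
    simp only [e1, e2]
    by_cases c1 : x + v ≤ u <;> by_cases c2 : x < v <;> simp only [c1, c2, if_true, if_false] <;>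
      ring
  rw [sum_congr rfl h1, sum_congr rfl h2, sum_comm]

/-- Euler identity. -/
theorem euler {c u : ℕ} {s r : ℕ → ℝ} (hs : ∀ x, x ∉ Icc 1 c → s x = 0)
    (hr : ∀ v, v ∉ Icc 1 u → r v = 0) :
    Q c u s r = ∑ x ∈ Icc 1 c, s x * g c u s r x + ∑ v ∈ Icc 1 u, r v * w c u s r v := by
  have h := exch hs hr
  have h1 : ∑ x ∈ Icc 1 c, s x * g c u s r x = S s c ^ 2 + ∑ x ∈ Icc 1 c, s x * S s (c - x) +
      ∑ x ∈ Icc 1 c, s x * (S r (u - x) + S r u - S r x) := by
    have : S s c ^ 2 = ∑ x ∈ Icc 1 c, s x * S s c := by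
      rw [← sum_mul, sq]
      rfl
    rw [this, ← sum_add_distrib, ← sum_add_distrib]
    refine sum_congr rfl fun x _ => ?_
    unfold g
    ring
  have h2 : ∑ v ∈ Icc 1 u, r v * w c u s r v = ∑ v ∈ Icc 1 u, r v * (S s (u - v) + S s (v - 1)) +
      ∑ v ∈ Icc 1 u, r v * (S r (v + c) - S r (v - 1 - c)) := by
    rw [← sum_add_distrib]
    refine sum_congr rfl fun v _ => ?_
    unfold w
    ring
  rw [h1, h2, ← h]
  unfold Q
  ring

theorem sum_refl (c : ℕ) (f : ℕ → ℝ) :
    ∑ v ∈ Icc 1 (2 * c), f v = ∑ v ∈ Icc 1 c, f v + ∑ v ∈ Icc 1 c, f (2 * c + 1 - v) := by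
  rw [← sum_filter_add_sum_filter_not (Icc 1 (2 * c)) (fun v => v ≤ c) f]
  congr 1
  · refine sum_congr ?_ fun _ _ => rfl
    ext v
    rw [mem_filter, mem_Icc, mem_Icc]
    omega
  · refine sum_nbij' (fun v => 2 * c + 1 - v) (fun v => 2 * c + 1 - v) ?_ ?_ ?_ ?_ ?_
    · intro v hv
      rw [mem_filter, mem_Icc] at hv
      rw [mem_Icc]
      omega
    · intro v hv
      rw [mem_Icc] at hv
      rw [mem_filter, mem_Icc]
      omega
    · intro v hv
      rw [mem_filter, mem_Icc] at hv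
      show 2 * c + 1 - (2 * c + 1 - v) = v
      omega
    · intro v hv
      rw [mem_Icc] at hv
      show 2 * c + 1 - (2 * c + 1 - v) = v
      omega
    · intro v hv
      rw [mem_filter, mem_Icc] at hv
      show f v = f (2 * c + 1 - (2 * c + 1 - v))
      congr 1
      omega

theorem Phi_neg (lam t : ℝ) : Phi lam (-t) = - Phi lam t := by
  unfold Phi
  rw [neg_div]
  generalize t / lam = y
  rcases le_total y 1 with h1 | h1 <;> rcases le_total (-1) y with h2 | h2
  · rw [min_eq_right h1, max_eq_right h2, min_eq_right (by linarith), max_eq_right (by linarith)]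
  · rw [min_eq_right h1, max_eq_left h2, min_eq_left (by linarith), max_eq_right (by linarith)]
    ring
  · rw [min_eq_left h1, max_eq_right (by norm_num : (-1 : ℝ) ≤ 1),
      min_eq_right (by linarith : -y ≤ 1), max_eq_left (by linarith : -y ≤ -1)]
  · exfalso
    linarith

theorem g2_neg (c : ℕ) (s a b : ℕ → ℝ) (x : ℕ) :
    g2 c (fun x => - s x) (fun x => - a x) (fun x => - b x) x = - g2 c s a b x := by
  unfold g2
  simp only [S_neg]
  ring

theorem w2_neg (c : ℕ) (s a b : ℕ → ℝ) (x : ℕ) :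
    w2 c (fun x => - s x) (fun x => - a x) (fun x => - b x) x = - w2 c s a b x := by
  unfold w2
  simp only [S_neg]
  ring

theorem goalCR2 : G_CR2 := by
  intro c lam s r hlam hC
  obtain ⟨a, ha⟩ : ∃ a : ℕ → ℝ, ∀ v, a v = if v ∈ Icc 1 c then r v else 0 := ⟨_, fun _ => rfl⟩
  obtain ⟨b, hb⟩ : ∃ b : ℕ → ℝ, ∀ v, b v = if v ∈ Icc 1 c then r (2 * c + 1 - v) else 0 :=
    ⟨_, fun _ => rfl⟩
  have ha0 : ∀ x, x ∉ Icc 1 c → a x = 0 := fun x hx => by rw [ha, if_neg hx]
  have hb0 : ∀ x, x ∉ Icc 1 c → b x = 0 := fun x hx => by rw [hb, if_neg hx]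
  have ha1 : ∀ x ∈ Icc 1 c, a x = r x := fun x hx => by rw [ha, if_pos hx]
  have hb1 : ∀ x ∈ Icc 1 c, b x = r (2 * c + 1 - x) := fun x hx => by rw [hb, if_pos hx]
  -- partial sums of r
  have hS1 : ∀ k, k ≤ c → S r k = S a k := by
    intro k hk
    unfold S
    refine sum_congr rfl fun x hx => ?_
    have := mem_Icc.1 hx
    rw [ha1 x (mem_Icc.2 ⟨this.1, this.2.trans hk⟩)]
  have hS2 : ∀ j, j ≤ c → S r (c + j) = S a c + S b c - S b (c - j) := by
    intro j
    induction j with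
    | zero =>
      intro _
      rw [add_zero, Nat.sub_zero, hS1 c le_rfl]
      ring
    | succ j ih =>
      intro hj
      have e1 := ih (by omega)
      have e2 : S r (c + (j + 1)) = S r (c + j) + r (c + j + 1) := S_succ r (c + j)
      have e3 : c - j = (c - (j + 1)) + 1 := by omega
      rw [e3, S_succ] at e1
      have e4 : b (c - (j + 1) + 1) = r (c + j + 1) := by
        rw [hb1 _ (mem_Icc.2 ⟨by omega, by omega⟩)]
        congr 1
        omega
      rw [e2, e1, e4]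
      ring
  have hS3 : ∀ k, 2 * c ≤ k → S r k = S a c + S b c := by
    intro k hk
    rw [S_const hC.r0 hk]
    have := hS2 c le_rfl
    rw [Nat.sub_self, S_zero, ← two_mul] at this
    rw [this]
    ring
  have hg : ∀ x ∈ Icc 1 c, g c (2 * c) s r x = g2 c s a b x := by
    intro x hx
    have hx' := mem_Icc.1 hx
    unfold g g2
    have e1 : 2 * c - x = c + (c - x) := by omega
    have e2 : c - (c - x) = x := by omega
    rw [e1, hS2 (c - x) (by omega), e2, hS3 (2 * c) le_rfl, hS1 x hx'.2]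
    ring
  have hw1 : ∀ v ∈ Icc 1 c, w c (2 * c) s r v = w2 c s a b v := by
    intro v hv
    have hv' := mem_Icc.1 hv
    unfold w w2
    have e1 : v + c = c + v := by omega
    have e2 : v - 1 - c = 0 := by omega
    rw [S_const hC.s0 (by omega : c ≤ 2 * c - v), e1, hS2 v hv'.2, e2, S_zero]
    ring
  have hw2 : ∀ v ∈ Icc 1 c, w c (2 * c) s r (2 * c + 1 - v) = w2 c s b a v := by
    intro v hv
    have hv' := mem_Icc.1 hv
    unfold w w2
    have e1 : 2 * c - (2 * c + 1 - v) = v - 1 := by omega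
    have e2 : 2 * c + 1 - v - 1 - c = c - v := by omega
    rw [e1, S_const hC.s0 (by omega : c ≤ 2 * c + 1 - v - 1), hS3 _ (by omega), e2,
      hS1 (c - v) (by omega)]
    ring
  have hQ : Q c (2 * c) s r = ∑ x ∈ Icc 1 c, s x * g2 c s a b x +
      ∑ x ∈ Icc 1 c, a x * w2 c s a b x + ∑ x ∈ Icc 1 c, b x * w2 c s b a x := by
    rw [euler hC.s0 hC.r0, sum_refl c (fun v => r v * w c (2 * c) s r v), ← add_assoc]
    congr 1
    · congr 1
      · exact sum_congr rfl fun x hx => by rw [hg x hx]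
      · exact sum_congr rfl fun x hx => by rw [hw1 x hx, ha1 x hx]
    · exact sum_congr rfl fun x hx => by rw [hw2 x hx, hb1 x hx]
  have hsE : ∀ x ∈ Icc 1 c, s x = - Phi lam (g2 c s a b x) := fun x hx => by
    rw [← hg x hx]
    exact hC.hs x hx
  have haE : ∀ x ∈ Icc 1 c, a x = - Phi lam (w2 c s a b x) := fun x hx => by
    have hx' := mem_Icc.1 hx
    rw [← hw1 x hx, ha1 x hx]
    exact hC.hr x (mem_Icc.2 ⟨hx'.1, by omega⟩)
  have hbE : ∀ x ∈ Icc 1 c, b x = - Phi lam (w2 c s b a x) := fun x hx => by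
    have hx' := mem_Icc.1 hx
    rw [← hw2 x hx, hb1 x hx]
    exact hC.hr _ (mem_Icc.2 ⟨by omega, by omega⟩)
  rcases le_or_gt (S s c + S a c + S b c) 0 with hneg | hpos
  · exact ⟨s, a, b, ⟨hlam, hC.s0, ha0, hb0, hsE, haE, hbE, hneg⟩, hQ⟩
  · refine ⟨fun x => - s x, fun x => - a x, fun x => - b x,
      ⟨hlam, ?_, ?_, ?_, ?_, ?_, ?_, ?_⟩, ?_⟩
    · intro x hx
      show - s x = 0
      rw [hC.s0 x hx, neg_zero]
    · intro x hx
      show - a x = 0
      rw [ha0 x hx, neg_zero]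
    · intro x hx
      show - b x = 0
      rw [hb0 x hx, neg_zero]
    · intro x hx
      show - s x = - Phi lam (g2 c (fun x => - s x) (fun x => - a x) (fun x => - b x) x)
      rw [g2_neg, Phi_neg, hsE x hx]
    · intro x hx
      show - a x = - Phi lam (w2 c (fun x => - s x) (fun x => - a x) (fun x => - b x) x)
      rw [w2_neg, Phi_neg, haE x hx]
    · intro x hx
      show - b x = - Phi lam (w2 c (fun x => - s x) (fun x => - b x) (fun x => - a x) x)
      rw [w2_neg, Phi_neg, hbE x hx]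
    · simp only [S_neg]
      linarith
    · rw [hQ]
      simp only [g2_neg, w2_neg, neg_mul_neg]

end Pool.Agent.Helper9.SCH
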